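import Pool.Agent.Helper64_LeoK.Mst

/-!
Module LWT of squad LEOK.
-/

set_option autoImplicit false

open NumberField IsDedekindDomain Module MeasureTheory

namespace Pool.Agent.LeoK.H64

lemma hes_smul {A : Type} [CommRing A] (v : Q4 A) (c X Y : A) :
    hes v (c * X) (c * Y) = c ^ 2 * hes v X Y := by
  unfold hes
  ring

lemma hes_neg {A : Type} [CommRing A] (v : Q4 A) (X Y : A) :
    hes v (-X) (-Y) = hes v X Y := by
  unfold hes
  ring

lemma hes_map {A B : Type} [CommRing A] [CommRing B] (f : A →+* B) (v : Q4 A) (X Y : A) :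
    f (hes v X Y) = hes (fun i => f (v i)) (f X) (f Y) := by
  unfold hes fP fQ fR
  simp only [map_add, map_mul, map_pow, map_sub, map_neg, map_ofNat]

lemma qM_map {A B : Type} [CommRing A] [CommRing B] (f : A →+* B) (v : Q4 A) :
    f (qM v) = qM (fun i => f (v i)) := by
  unfold qM fM fP fQ fR
  simp only [map_add, map_mul, map_pow, map_sub, map_neg, map_ofNat]

lemma qP_map {A B : Type} [CommRing A] [CommRing B] (f : A →+* B) (v : Q4 A) :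
    f (qP v) = qP (fun i => f (v i)) := by
  unfold qP fP
  simp only [map_add, map_mul, map_pow, map_sub, map_neg, map_ofNat]

section

variable {k : Type} [Field k] [NumberField k]

/-- the vector of `ℂⁿ` of the pair `(X, Y)` -/
noncomputable def zHom (z₁ z₂ : Sg k → ℂ) : 𝓞 k × 𝓞 k →+ (Sg k → ℂ) where
  toFun p := fun s => ((s (p.1 : k) : ℝ) : ℂ) * z₁ s + ((s (p.2 : k) : ℝ) : ℂ) * z₂ s
  map_zero' := by
    funext s
    simp
  map_add' x y := by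
    funext s
    simp only [Prod.fst_add, Prod.snd_add, map_add, Pi.add_apply]
    push_cast
    ring

lemma zHom_apply (z₁ z₂ : Sg k → ℂ) (p : 𝓞 k × 𝓞 k) (s : Sg k) :
    zHom z₁ z₂ p s = ((s (p.1 : k) : ℝ) : ℂ) * z₁ s + ((s (p.2 : k) : ℝ) : ℂ) * z₂ s := rfl

lemma prod_norm_le (y : Sg k → ℂ) : ∏ s, ‖y s‖ ^ 2 ≤ ‖y‖ ^ (2 * Fintype.card (Sg k)) := by
  calc ∏ s, ‖y s‖ ^ 2 ≤ ∏ _s : Sg k, ‖y‖ ^ 2 := Finset.prod_le_prod (fun s _ => by positivity)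
        (fun s _ => pow_le_pow_left₀ (norm_nonneg _) (norm_le_pi_norm y s) 2)
    _ = _ := by rw [Finset.prod_const, Finset.card_univ, ← pow_mul]

lemma exists_z (hRot : RotStmt) (δ : ℝ) (v : Q4 (𝓞 k)) (hv : Lrg δ v) :
    ∃ z₁ z₂ : Sg k → ℂ, ∀ (p : 𝓞 k × 𝓞 k) (s : Sg k), ‖zHom z₁ z₂ p s‖ ^ 2 = hx v p.1 p.2 s := by
  have h : ∀ s : Sg k, ∃ z : ℂ × ℂ, ∀ p : 𝓞 k × 𝓞 k,
      ‖((s (p.1 : k) : ℝ) : ℂ) * z.1 + ((s (p.2 : k) : ℝ) : ℂ) * z.2‖ ^ 2 = hx v p.1 p.2 s := by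
    intro s
    let f : 𝓞 k →+* ℝ := s.comp (algebraMap (𝓞 k) k)
    have hP : 0 < qP (fun i => f (v i)) := by
      rw [← qP_map]
      exact hv.posP s
    have hM : 0 < qM (fun i => f (v i)) := by
      rw [← qM_map]
      exact hv.posM s
    obtain ⟨z₁, z₂, -, hz⟩ := hRot (fun i => f (v i)) hP hM
    refine ⟨(z₁, z₂), fun p => ?_⟩
    have h1 := (hz (f p.1) (f p.2)).1
    rw [← hes_map, ← qM_map] at h1
    exact h1
  choose z hz using h
  exact ⟨fun s => (z s).1, fun s => (z s).2, fun p s => hz s p⟩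

/-- the vectors with bounded norm -/
theorem lwt1 (hP : PckStmt) (hRot : RotStmt) (hC : ConStmt) (hN : NorStmt) (hk : IsTotallyReal k)
    (Φ : Frame k) (δ : ℝ) (hδ : 0 < δ) :
    ∃ A : ℝ, 0 < A ∧ ∀ v : Q4 (𝓞 k), Lrg δ v → ∀ T : ℝ, 0 < T →
    {p : 𝓞 k × 𝓞 k | hx v p.1 p.2 ∈ Φ.F ∧ ∏ s, hx v p.1 p.2 s ≤ T}.Finite ∧
    ({p : 𝓞 k × 𝓞 k | hx v p.1 p.2 ∈ Φ.F ∧ ∏ s, hx v p.1 p.2 s ≤ T}.ncard : ℝ) ≤ A * T := by
  obtain ⟨hcard, -, -, -, -, hbd⟩ := hC k hk Φ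
  have : Nonempty (Sg k) := lam_inj hk hN
  have hn : 0 < Fintype.card (Sg k) := Fintype.card_pos
  let D₁ : Set (Sg k → ℂ) := {w | (fun s => ‖w s‖ ^ 2) ∈ Φ.F ∩ {x | ∏ s, x s ≤ 1}}
  have hD₁ : Bornology.IsBounded D₁ := by
    obtain ⟨R, hR⟩ := isBounded_iff_forall_norm_le.mp (hbd 1 one_pos).2.2.2
    refine isBounded_iff_forall_norm_le.mpr ⟨Real.sqrt R, fun w hw => ?_⟩
    have h1 := hR _ hw
    have hR0 : 0 ≤ R := (norm_nonneg _).trans h1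
    refine (pi_norm_le_iff_of_nonneg (Real.sqrt_nonneg _)).mpr fun s => ?_
    refine Real.le_sqrt_of_sq_le ?_
    have h2 := norm_le_pi_norm (fun s => ‖w s‖ ^ 2) s
    rw [Real.norm_of_nonneg (by positivity)] at h2
    exact h2.trans h1
  have hρ : 0 < min 1 δ := lt_min one_pos hδ
  obtain ⟨A, hA, hpck⟩ := hP (Sg k → ℂ) D₁ hD₁ (min 1 δ) hρ
  have key : ∀ v : Q4 (𝓞 k), Lrg δ v → ∀ T : ℝ, 1 ≤ T →
      {p : 𝓞 k × 𝓞 k | hx v p.1 p.2 ∈ Φ.F ∧ ∏ s, hx v p.1 p.2 s ≤ T}.Finite ∧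
      ({p : 𝓞 k × 𝓞 k | hx v p.1 p.2 ∈ Φ.F ∧ ∏ s, hx v p.1 p.2 s ≤ T}.ncard : ℝ) ≤ A * T := by
    intro v hv T hT
    obtain ⟨z₁, z₂, hz⟩ := exists_z hRot δ v hv
    have hT0 : 0 < T := by linarith
    set t : ℝ := T ^ (1 / ((2 * Fintype.card (Sg k) : ℕ) : ℝ)) with ht
    have ht1 : 1 ≤ t := Real.one_le_rpow hT (by positivity)
    have h2n : (((2 * Fintype.card (Sg k) : ℕ)) : ℝ) ≠ 0 := by
      exact_mod_cast (by omega : 2 * Fintype.card (Sg k) ≠ 0)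
    have htn : t ^ (2 * Fintype.card (Sg k)) = T := by
      rw [ht, ← Real.rpow_natCast, ← Real.rpow_mul hT0.le, one_div, inv_mul_cancel₀ h2n,
        Real.rpow_one]
    have ht0 : 0 < t := by linarith
    have hprod : ∀ p : 𝓞 k × 𝓞 k, p ≠ 0 → δ ≤ ∏ s, ‖zHom z₁ z₂ p s‖ ^ 2 := by
      intro p hp
      have h1 : p.1 ≠ 0 ∨ p.2 ≠ 0 := by
        by_contra hno
        push Not at hno
        exact hp (Prod.ext hno.1 hno.2)
      have h2 := hv.short p.1 p.2 h1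
      rw [Finset.prod_congr rfl fun s _ => hz p s]
      exact h2
    obtain ⟨hfin, hle⟩ := hpck t ht1 (zHom z₁ z₂).range (by
      rintro y ⟨p, rfl⟩ hy
      have hp : p ≠ 0 := by
        rintro rfl
        exact hy (map_zero _)
      have h1 := (hprod p hp).trans (prod_norm_le _)
      by_contra hlt
      push Not at hlt
      have h2 : ‖zHom z₁ z₂ p‖ < 1 := hlt.trans_le (min_le_left _ _)
      have h3 : ‖zHom z₁ z₂ p‖ < δ := hlt.trans_le (min_le_right _ _)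
      have h4 : ‖zHom z₁ z₂ p‖ ^ (2 * Fintype.card (Sg k)) ≤ ‖zHom z₁ z₂ p‖ ^ 1 :=
        pow_le_pow_of_le_one (norm_nonneg _) h2.le (by omega)
      rw [pow_one] at h4
      linarith)
    have hmap : ∀ p ∈ {p : 𝓞 k × 𝓞 k | hx v p.1 p.2 ∈ Φ.F ∧ ∏ s, hx v p.1 p.2 s ≤ T},
        zHom z₁ z₂ p ∈ {y : Sg k → ℂ | y ∈ (zHom z₁ z₂).range ∧ t⁻¹ • y ∈ D₁} := by
      rintro p ⟨hp, hp'⟩
      have h1 : (fun s => ‖(t⁻¹ • zHom z₁ z₂ p) s‖ ^ 2) = (t⁻¹ ^ 2) • hx v p.1 p.2 := by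
        funext s
        rw [Pi.smul_apply, Pi.smul_apply, norm_smul, mul_pow, hz, smul_eq_mul,
          Real.norm_of_nonneg (inv_nonneg.mpr ht0.le)]
      refine ⟨⟨p, rfl⟩, ?_⟩
      change (fun s => ‖(t⁻¹ • zHom z₁ z₂ p) s‖ ^ 2) ∈ Φ.F ∩ {x | ∏ s, x s ≤ 1}
      rw [h1]
      refine ⟨Φ.scal _ hp _ (by positivity), ?_⟩
      rw [Set.mem_ofPred_eq]
      simp only [Pi.smul_apply, smul_eq_mul]
      rw [Finset.prod_mul_distrib, Finset.prod_const, Finset.card_univ, ← pow_mul, inv_pow, htn,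
        inv_mul_le_iff₀ hT0, mul_one]
      exact hp'
    have hinj : Set.InjOn (zHom z₁ z₂)
        {p : 𝓞 k × 𝓞 k | hx v p.1 p.2 ∈ Φ.F ∧ ∏ s, hx v p.1 p.2 s ≤ T} := by
      intro x _ y _ hxy
      by_contra hne
      have h1 := hprod (x - y) (sub_ne_zero.mpr hne)
      rw [map_sub, hxy, sub_self] at h1
      simp only [Pi.zero_apply, norm_zero] at h1
      rw [Finset.prod_const, Finset.card_univ, ← pow_mul, zero_pow (by omega)] at h1
      linarith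
    refine ⟨Set.Finite.of_injOn hmap hinj hfin, ?_⟩
    have h1 := Set.ncard_le_ncard_of_injOn _ hmap hinj hfin
    have h2 : finrank ℝ (Sg k → ℂ) = 2 * Fintype.card (Sg k) := by
      rw [Module.finrank_pi_fintype]
      simp [Complex.finrank_real_complex, mul_comm]
    rw [h2, htn] at hle
    exact le_trans (by exact_mod_cast h1) hle
  refine ⟨A * (1 + 1 / δ), by positivity, fun v hv T hT => ?_⟩
  rcases lt_or_ge T 1 with hT1 | hT1
  · have hsub : {p : 𝓞 k × 𝓞 k | hx v p.1 p.2 ∈ Φ.F ∧ ∏ s, hx v p.1 p.2 s ≤ T} ⊆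
        {p : 𝓞 k × 𝓞 k | hx v p.1 p.2 ∈ Φ.F ∧ ∏ s, hx v p.1 p.2 s ≤ 1} := fun p hp =>
      ⟨hp.1, hp.2.trans hT1.le⟩
    obtain ⟨hfin, hle⟩ := key v hv 1 le_rfl
    refine ⟨hfin.subset hsub, ?_⟩
    rcases lt_or_ge T δ with hTδ | hTδ
    · have hemp : {p : 𝓞 k × 𝓞 k | hx v p.1 p.2 ∈ Φ.F ∧ ∏ s, hx v p.1 p.2 s ≤ T} = ∅ := by
        rw [Set.eq_empty_iff_forall_notMem]
        rintro p ⟨hp, hp'⟩
        have hpos := Φ.pos _ hp
        have h1 : p.1 ≠ 0 ∨ p.2 ≠ 0 := by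
          by_contra hno
          push Not at hno
          have h2 := hpos (Classical.arbitrary _)
          rw [hno.1, hno.2] at h2
          simp [hx, hes] at h2
        have h2 := hv.short p.1 p.2 h1
        linarith
      rw [hemp, Set.ncard_empty]
      push_cast
      positivity
    · have h1 := Set.ncard_le_ncard hsub hfin
      have h2 : ({p : 𝓞 k × 𝓞 k | hx v p.1 p.2 ∈ Φ.F ∧ ∏ s, hx v p.1 p.2 s ≤ T}.ncard : ℝ) ≤
          A * 1 := le_trans (by exact_mod_cast h1) hle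
      have h3 : 1 ≤ T / δ := by rwa [one_le_div hδ]
      calc _ ≤ A * 1 := h2
        _ ≤ A * (T / δ) := mul_le_mul_of_nonneg_left h3 hA.le
        _ ≤ A * (T + T / δ) := mul_le_mul_of_nonneg_left (by linarith) hA.le
        _ = _ := by ring
  · obtain ⟨hfin, hle⟩ := key v hv T hT1
    refine ⟨hfin, hle.trans ?_⟩
    have : 0 ≤ A * (1 / δ) * T := by positivity
    nlinarith

theorem lwt (hP : PckStmt) (hRot : RotStmt) (hR : RepStmt) (hC : ConStmt) (hN : NorStmt) :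
    LwtStmt := by
  intro k _ _ hk Φ δ hδ
  classical
  obtain ⟨A, hA, hlwt⟩ := lwt1 hP hRot hC hN hk Φ δ hδ
  obtain ⟨N₀, hN₀, hrep⟩ := hR k hk
  have hN1 : (1 : ℝ) ≤ N₀ := by exact_mod_cast hN₀
  refine ⟨2 * A * (N₀ : ℝ) ^ 2, by positivity, fun v hv T hT => ⟨(hlwt v hv T hT).1, ?_⟩⟩
  intro q
  obtain ⟨r, α, β, hα, hβ, -, hspan, hnorm, -⟩ := hrep q.asIdeal q.ne_bot
  have hnp := np_pos q
  have hpα := abs_prod_pos α hα
  have hpβ := abs_prod_pos β hβ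
  have hsα : ∀ s : Sg k, s ((α : 𝓞 k) : k) ≠ 0 := fun s => by
    rw [_root_.map_ne_zero]; exact_mod_cast hα
  have hsβ : ∀ s : Sg k, s ((β : 𝓞 k) : k) ≠ 0 := fun s => by
    rw [_root_.map_ne_zero]; exact_mod_cast hβ
  set T' : ℝ := ((N₀ : ℝ) / np q) ^ 2 * T with hT'
  have hT'0 : 0 < T' := by
    have : (0 : ℝ) < N₀ := by linarith
    positivity
  let S : Set (𝓞 k × 𝓞 k) := {p | p.1 ∈ q.asIdeal ∧ p.2 ∈ q.asIdeal ∧ hx v p.1 p.2 ∈ Φ.F ∧
    ∏ s, hx v p.1 p.2 s ≤ T}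
  have hhx : ∀ (c X Y : 𝓞 k) (s : Sg k), hx v (c * X) (c * Y) s = s (c : k) ^ 2 * hx v X Y s := by
    intro c X Y s
    unfold hx
    rw [hes_smul, mul_div_assoc']
    simp only [map_mul, map_pow]
  -- the map
  have hex : ∀ p : 𝓞 k × 𝓞 k, p ∈ S → ∃ (X' Y' : 𝓞 k) (η : (𝓞 k)ˣ),
      β * p.1 = α * X' ∧ β * p.2 = α * Y' ∧
        hx v ((η : 𝓞 k) * X') ((η : 𝓞 k) * Y') ∈ Φ.F := by
    rintro p ⟨h1, h2, h3, -⟩
    obtain ⟨X', hX'⟩ := dvd_of_span q.asIdeal r α β hspan p.1 h1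
    obtain ⟨Y', hY'⟩ := dvd_of_span q.asIdeal r α β hspan p.2 h2
    have hpos := Φ.pos _ h3
    have hpos' : ∀ s : Sg k, 0 < hx v X' Y' s := by
      intro s
      have h4 := hhx β p.1 p.2 s
      rw [hX', hY', hhx α X' Y' s] at h4
      have h5 : 0 < s ((β : 𝓞 k) : k) ^ 2 * hx v p.1 p.2 s := by
        have := hsβ s
        exact mul_pos (by positivity) (hpos s)
      rw [← h4] at h5
      have := hsα s
      exact (mul_pos_iff_of_pos_left (by positivity)).mp h5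
    obtain ⟨η, hη⟩ := Φ.exi _ hpos'
    refine ⟨X', Y', η, hX', hY', ?_⟩
    have h5 : hx v ((η : 𝓞 k) * X') ((η : 𝓞 k) * Y') = lam ((η : 𝓞 k) : k) ^ 2 * hx v X' Y' := by
      funext s
      rw [hhx]
      rfl
    rw [h5]
    exact hη
  choose! X' Y' η hX' hY' hη using hex
  let f : 𝓞 k × 𝓞 k → 𝓞 k × 𝓞 k := fun p => ((η p : 𝓞 k) * X' p, (η p : 𝓞 k) * Y' p)
  have hmap : ∀ p ∈ S, f p ∈ {p : 𝓞 k × 𝓞 k | hx v p.1 p.2 ∈ Φ.F ∧
      ∏ s, hx v p.1 p.2 s ≤ T'} := by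
    intro p hp
    refine ⟨hη p hp, ?_⟩
    have hposp := Φ.pos _ hp.2.2.1
    have h6 : (∏ s : Sg k, |s (α : k)|) ^ 2 * ∏ s : Sg k, hx v (f p).1 (f p).2 s =
        (∏ s : Sg k, |s (β : k)|) ^ 2 * ∏ s : Sg k, hx v p.1 p.2 s := by
      have h7 : (∏ s : Sg k, hx v (f p).1 (f p).2 s) =
          (∏ s : Sg k, |s ((η p : 𝓞 k) : k)|) ^ 2 * ∏ s : Sg k, hx v (X' p) (Y' p) s := by
        rw [← Finset.prod_pow, ← Finset.prod_mul_distrib]
        refine Finset.prod_congr rfl fun s _ => ?_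
        rw [sq_abs]
        exact hhx (η p : 𝓞 k) (X' p) (Y' p) s
      rw [h7, unit_prod hN hk, one_pow, one_mul]
      rw [← Finset.prod_pow, ← Finset.prod_pow, ← Finset.prod_mul_distrib,
        ← Finset.prod_mul_distrib]
      refine Finset.prod_congr rfl fun s _ => ?_
      rw [sq_abs, sq_abs, ← hhx, ← hhx, hX' p hp, hY' p hp]
    have h10 : np q * ∏ s : Sg k, |s (β : k)| ≤ N₀ * ∏ s : Sg k, |s (α : k)| := hnorm
    have h11 : (np q * ∏ s : Sg k, |s (β : k)|) ^ 2 ≤ (N₀ * ∏ s : Sg k, |s (α : k)|) ^ 2 :=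
      pow_le_pow_left₀ (by positivity) h10 2
    set a := ∏ s : Sg k, |s (α : k)| with ha
    set b := ∏ s : Sg k, |s (β : k)| with hb
    set x := ∏ s : Sg k, hx v (f p).1 (f p).2 s with hx'
    have h13 : a ^ 2 * x ≤ b ^ 2 * T := by
      rw [h6]
      exact mul_le_mul_of_nonneg_left hp.2.2.2 (by positivity)
    have h14 : np q ^ 2 * (a ^ 2 * x) ≤ (N₀ : ℝ) ^ 2 * a ^ 2 * T := by
      calc np q ^ 2 * (a ^ 2 * x) ≤ np q ^ 2 * (b ^ 2 * T) :=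
            mul_le_mul_of_nonneg_left h13 (by positivity)
        _ = (np q * b) ^ 2 * T := by ring
        _ ≤ (N₀ * a) ^ 2 * T := mul_le_mul_of_nonneg_right h11 hT.le
        _ = _ := by ring
    have h15 : a ^ 2 * (np q ^ 2 * x) ≤ a ^ 2 * ((N₀ : ℝ) ^ 2 * T) := by linarith
    have h16 : np q ^ 2 * x ≤ (N₀ : ℝ) ^ 2 * T := le_of_mul_le_mul_left h15 (by positivity)
    rw [hT', div_pow, div_mul_eq_mul_div, le_div_iff₀ (by positivity)]
    linarith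
  have hfib : ∀ p ∈ S, ∀ p' ∈ S, f p = f p' → p' = p ∨ p' = (-p.1, -p.2) := by
    intro p hp p' hp' hpp
    have e1 : (η p : 𝓞 k) * X' p = (η p' : 𝓞 k) * X' p' := congrArg Prod.fst hpp
    have e2 : (η p : 𝓞 k) * Y' p = (η p' : 𝓞 k) * Y' p' := congrArg Prod.snd hpp
    have g1 : (η p : 𝓞 k) * p.1 = (η p' : 𝓞 k) * p'.1 := by
      have h9 : β * ((η p : 𝓞 k) * p.1) = β * ((η p' : 𝓞 k) * p'.1) := by
        calc β * ((η p : 𝓞 k) * p.1) = (η p : 𝓞 k) * (β * p.1) := by ring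
          _ = α * ((η p : 𝓞 k) * X' p) := by rw [hX' p hp]; ring
          _ = (η p' : 𝓞 k) * (α * X' p') := by rw [e1]; ring
          _ = _ := by rw [← hX' p' hp']; ring
      exact mul_left_cancel₀ hβ h9
    have g2 : (η p : 𝓞 k) * p.2 = (η p' : 𝓞 k) * p'.2 := by
      have h9 : β * ((η p : 𝓞 k) * p.2) = β * ((η p' : 𝓞 k) * p'.2) := by
        calc β * ((η p : 𝓞 k) * p.2) = (η p : 𝓞 k) * (β * p.2) := by ring
          _ = α * ((η p : 𝓞 k) * Y' p) := by rw [hY' p hp]; ring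
          _ = (η p' : 𝓞 k) * (α * Y' p') := by rw [e2]; ring
          _ = _ := by rw [← hY' p' hp']; ring
      exact mul_left_cancel₀ hβ h9
    have h11 : (((η p')⁻¹ : (𝓞 k)ˣ) : 𝓞 k) * (η p' : 𝓞 k) = 1 := Units.inv_mul _
    have k1 : p'.1 = (((η p')⁻¹ * η p : (𝓞 k)ˣ) : 𝓞 k) * p.1 := by
      rw [Units.val_mul, mul_assoc, g1, ← mul_assoc, h11, one_mul]
    have k2 : p'.2 = (((η p')⁻¹ * η p : (𝓞 k)ˣ) : 𝓞 k) * p.2 := by
      rw [Units.val_mul, mul_assoc, g2, ← mul_assoc, h11, one_mul]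
    have h12 := Φ.uni _ hp.2.2.1 ((η p')⁻¹ * η p) (by
      have h13 : lam ((((η p')⁻¹ * η p : (𝓞 k)ˣ) : 𝓞 k) : k) ^ 2 * hx v p.1 p.2 =
          hx v p'.1 p'.2 := by
        funext s
        rw [k1, k2, hhx]
        rfl
      rw [h13]
      exact hp'.2.2.1)
    rcases h12 with h12 | h12
    · left
      rw [h12] at k1 k2
      refine Prod.ext ?_ ?_
      · rw [k1]; simp
      · rw [k2]; simp
    · right
      rw [h12] at k1 k2
      refine Prod.ext ?_ ?_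
      · rw [k1]; simp
      · rw [k2]; simp
  have hSfin : S.Finite := (hlwt v hv T hT).1.subset fun p hp => ⟨hp.2.2.1, hp.2.2.2⟩
  obtain ⟨hfin', hle'⟩ := hlwt v hv T' hT'0
  have hcount : S.ncard ≤ 2 * {p : 𝓞 k × 𝓞 k | hx v p.1 p.2 ∈ Φ.F ∧
      ∏ s, hx v p.1 p.2 s ≤ T'}.ncard := by
    rw [Set.ncard_eq_toFinset_card S hSfin]
    have h1 := Finset.card_le_mul_card_image (f := f) hSfin.toFinset 2 (by
      intro a ha
      obtain ⟨p, hp, rfl⟩ := Finset.mem_image.mp ha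
      rw [Set.Finite.mem_toFinset] at hp
      refine (Finset.card_le_card (t := {p, (-p.1, -p.2)}) ?_).trans Finset.card_le_two
      intro p' hp'
      rw [Finset.mem_filter, Set.Finite.mem_toFinset] at hp'
      rw [Finset.mem_insert, Finset.mem_singleton]
      exact hfib p hp p' hp'.1 hp'.2.symm)
    refine h1.trans (Nat.mul_le_mul_left 2 ?_)
    rw [Set.ncard_eq_toFinset_card _ hfin']
    refine Finset.card_le_card fun a ha => ?_
    obtain ⟨p, hp, rfl⟩ := Finset.mem_image.mp ha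
    rw [Set.Finite.mem_toFinset] at hp ⊢
    exact hmap p hp
  have h2 : (S.ncard : ℝ) ≤ 2 * (A * T') := by
    calc (S.ncard : ℝ) ≤ ((2 * {p : 𝓞 k × 𝓞 k | hx v p.1 p.2 ∈ Φ.F ∧
          ∏ s, hx v p.1 p.2 s ≤ T'}.ncard : ℕ) : ℝ) := by exact_mod_cast hcount
      _ ≤ 2 * (A * T') := by
        push_cast
        linarith
  refine h2.trans (le_of_eq ?_)
  rw [hT', div_pow]
  ring

end

end Pool.Agent.LeoK.H64
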