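import Pool.Agent.LeoK.CountStmts

/-!
Module MST of squad LEOK.
-/

set_option autoImplicit false

open NumberField IsDedekindDomain Module MeasureTheory

namespace Pool.Agent.LeoK.H64

lemma dvd_of_span {R : Type} [CommRing R] (I r : Ideal R) (α β : R)
    (h : Ideal.span {β} * I = Ideal.span {α} * r) (x : R) (hx : x ∈ I) : α ∣ β * x := by
  have h1 : β * x ∈ Ideal.span {β} * I := Ideal.mul_mem_mul (Ideal.mem_span_singleton_self β) hx
  rw [h] at h1
  have h2 : Ideal.span {α} * r ≤ Ideal.span {α} := Ideal.mul_le_left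
  exact Ideal.mem_span_singleton.mp (h2 h1)

lemma dvd_of_span_sq {R : Type} [CommRing R] (I r : Ideal R) (α β : R)
    (h : Ideal.span {β} * I = Ideal.span {α} * r) (x : R) (hx : x ∈ I ^ 2) :
    α ^ 2 ∣ β ^ 2 * x := by
  refine dvd_of_span (I ^ 2) (r ^ 2) (α ^ 2) (β ^ 2) ?_ x hx
  rw [← Ideal.span_singleton_pow, ← Ideal.span_singleton_pow, ← mul_pow, h, mul_pow]

section

variable {k : Type} [Field k] [NumberField k]

lemma unit_prod (hN : NorStmt) (hk : IsTotallyReal k) (η : (𝓞 k)ˣ) :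
    ∏ s : Sg k, |s ((η : 𝓞 k) : k)| = 1 := by
  obtain ⟨-, -, h⟩ := hN k hk
  have h1 := (h (η : 𝓞 k) η.ne_zero).1
  have h2 := (h ((η⁻¹ : (𝓞 k)ˣ) : 𝓞 k) (η⁻¹).ne_zero).1
  have h3 : (∏ s : Sg k, |s ((η : 𝓞 k) : k)|) *
      ∏ s : Sg k, |s (((η⁻¹ : (𝓞 k)ˣ) : 𝓞 k) : k)| = 1 := by
    rw [← Finset.prod_mul_distrib]
    refine Finset.prod_eq_one fun s _ => ?_
    rw [← abs_mul, ← map_mul]
    have h4 : (((η : 𝓞 k) : k)) * ((((η⁻¹ : (𝓞 k)ˣ) : 𝓞 k)) : k) = 1 := by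
      have h5 : (η : 𝓞 k) * ((η⁻¹ : (𝓞 k)ˣ) : 𝓞 k) = 1 := Units.mul_inv η
      have h6 := congrArg (algebraMap (𝓞 k) k) h5
      rw [map_mul, map_one] at h6
      exact h6
    rw [h4, map_one, abs_one]
  nlinarith

lemma lam_inj (hk : IsTotallyReal k) (hN : NorStmt) : Nonempty (Sg k) := by
  obtain ⟨h, -, -⟩ := hN k hk
  rw [← Fintype.card_pos_iff, h]
  exact finrank_pos

/-- coordinates as an additive map -/
def lamHom (k : Type) [Field k] [NumberField k] : 𝓞 k →+ (Sg k → ℝ) where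
  toFun x := lam (x : k)
  map_zero' := by
    funext s
    simp [lam]
  map_add' x y := by
    funext s
    simp [lam]

lemma lamHom_apply (x : 𝓞 k) : lamHom k x = lam (x : k) := rfl

lemma np_pos (p : HeightOneSpectrum (𝓞 k)) : 0 < np p := by
  unfold np
  have h : Ideal.absNorm p.asIdeal ≠ 0 := by
    rw [Ne, Ideal.absNorm_eq_zero_iff]
    exact p.ne_bot
  exact_mod_cast Nat.pos_of_ne_zero h

lemma prod_le_norm_pow (y : Sg k → ℝ) : ∏ s, |y s| ≤ ‖y‖ ^ Fintype.card (Sg k) := by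
  calc ∏ s, |y s| ≤ ∏ _s : Sg k, ‖y‖ := Finset.prod_le_prod (fun s _ => abs_nonneg _)
        (fun s _ => by
          have := norm_le_pi_norm y s
          rwa [Real.norm_eq_abs] at this)
    _ = _ := by rw [Finset.prod_const, Finset.card_univ]

/-- all integers of the cone -/
theorem mst1 (hP : PckStmt) (hC : ConStmt) (hN : NorStmt) (hk : IsTotallyReal k) (Φ : Frame k) :
    ∃ A : ℝ, 0 < A ∧ ∀ Z : ℝ, 0 < Z →
    {m : 𝓞 k | lam (m : k) ∈ Φ.F ∧ ∏ s : Sg k, s (m : k) ≤ Z}.Finite ∧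
    (({m : 𝓞 k | lam (m : k) ∈ Φ.F ∧ ∏ s : Sg k, s (m : k) ≤ Z}.ncard : ℝ) ≤ A * Z) := by
  obtain ⟨hcard, -, -, -, -, hbd⟩ := hC k hk Φ
  obtain ⟨-, -, hnor⟩ := hN k hk
  have : Nonempty (Sg k) := lam_inj hk hN
  have hn : 0 < Fintype.card (Sg k) := Fintype.card_pos
  obtain ⟨A, hA, hpck⟩ := hP (Sg k → ℝ) (Φ.F ∩ {x | ∏ s, x s ≤ 1}) (hbd 1 one_pos).2.2.2 1 one_pos
  refine ⟨A, hA, fun Z hZ => ?_⟩
  rcases lt_or_ge Z 1 with hZ1 | hZ1
  · have hemp : {m : 𝓞 k | lam (m : k) ∈ Φ.F ∧ ∏ s : Sg k, s (m : k) ≤ Z} = ∅ := by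
      rw [Set.eq_empty_iff_forall_notMem]
      rintro m ⟨hm, hm'⟩
      have hpos := Φ.pos _ hm
      have hm0 : m ≠ 0 := by
        rintro rfl
        have h1 := hpos (Classical.arbitrary _)
        simp [lam] at h1
      have h1 := (hnor m hm0).1
      have h2 : ∏ s : Sg k, |s (m : k)| = ∏ s : Sg k, s (m : k) :=
        Finset.prod_congr rfl fun s _ => abs_of_pos (hpos s)
      rw [h2] at h1
      linarith
    rw [hemp]
    refine ⟨Set.finite_empty, ?_⟩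
    rw [Set.ncard_empty]
    have := mul_pos hA hZ
    simpa using this.le
  · set t : ℝ := Z ^ (1 / (Fintype.card (Sg k) : ℝ)) with ht
    have ht1 : 1 ≤ t := Real.one_le_rpow hZ1 (by positivity)
    have htn : t ^ Fintype.card (Sg k) = Z := by
      rw [ht, ← Real.rpow_natCast, ← Real.rpow_mul hZ.le, one_div, inv_mul_cancel₀
        (by exact_mod_cast hn.ne'), Real.rpow_one]
    have ht0 : 0 < t := by linarith
    obtain ⟨hfin, hle⟩ := hpck t ht1 (lamHom k).range (by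
      rintro y ⟨x, rfl⟩ hy
      have hx : x ≠ 0 := by
        rintro rfl
        exact hy (map_zero _)
      have h1 := (hnor x hx).1
      have h2 := prod_le_norm_pow (lamHom k x)
      have h3 : (∏ s : Sg k, |s (x : k)|) = ∏ s, |lamHom k x s| := rfl
      rw [h3] at h1
      have h4 := h1.trans h2
      by_contra hlt
      push Not at hlt
      exact absurd h4 (not_le.mpr (pow_lt_one₀ (norm_nonneg _) hlt hn.ne')))
    have hmap : ∀ m ∈ {m : 𝓞 k | lam (m : k) ∈ Φ.F ∧ ∏ s : Sg k, s (m : k) ≤ Z},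
        lamHom k m ∈ {y : Sg k → ℝ | y ∈ (lamHom k).range ∧
          t⁻¹ • y ∈ Φ.F ∩ {x | ∏ s, x s ≤ 1}} := by
      rintro m ⟨hm, hm'⟩
      refine ⟨⟨m, rfl⟩, Φ.scal _ hm _ (inv_pos.mpr ht0), ?_⟩
      rw [Set.mem_ofPred_eq]
      simp only [Pi.smul_apply, smul_eq_mul]
      rw [Finset.prod_mul_distrib, Finset.prod_const, Finset.card_univ, inv_pow, htn]
      rw [inv_mul_le_iff₀ hZ, mul_one]
      exact hm'
    have hinj : Set.InjOn (lamHom k) {m : 𝓞 k | lam (m : k) ∈ Φ.F ∧ ∏ s : Sg k, s (m : k) ≤ Z} := by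
      intro x _ y _ hxy
      have h1 := congrFun hxy (Classical.arbitrary _)
      have h2 : (x : k) = (y : k) := (RingHom.injective _) h1
      exact RingOfIntegers.ext h2
    refine ⟨Set.Finite.of_injOn hmap hinj hfin, ?_⟩
    have h1 := Set.ncard_le_ncard_of_injOn _ hmap hinj hfin
    have h2 : finrank ℝ (Sg k → ℝ) = Fintype.card (Sg k) := Module.finrank_fintype_fun_eq_card ℝ
    rw [h2, htn] at hle
    exact le_trans (by exact_mod_cast h1) hle

lemma abs_prod_pos (x : 𝓞 k) (hx : x ≠ 0) : 0 < ∏ s : Sg k, |s (x : k)| := by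
  refine Finset.prod_pos fun s _ => abs_pos.mpr ?_
  rw [_root_.map_ne_zero]
  exact_mod_cast hx

theorem mst (hP : PckStmt) (hR : RepStmt) (hC : ConStmt) (hN : NorStmt) : MstStmt := by
  intro k _ _ hk Φ
  classical
  obtain ⟨A, hA, hmst⟩ := mst1 hP hC hN hk Φ
  obtain ⟨N₀, hN₀, hrep⟩ := hR k hk
  have hN1 : (1 : ℝ) ≤ N₀ := by exact_mod_cast hN₀
  refine ⟨A * (N₀ : ℝ) ^ 2, by positivity, fun Z hZ => ⟨(hmst Z hZ).1, ?_, ?_⟩⟩
  · refine (hmst Z hZ).2.trans ?_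
    have h1 : (1 : ℝ) ≤ (N₀ : ℝ) ^ 2 := one_le_pow₀ hN1
    have h2 : A * Z * 1 ≤ A * Z * (N₀ : ℝ) ^ 2 := mul_le_mul_of_nonneg_left h1 (by positivity)
    nlinarith
  · intro p
    obtain ⟨r, α, β, hα, hβ, -, hspan, hnorm, -⟩ := hrep p.asIdeal p.ne_bot
    have hnp := np_pos p
    have hpα := abs_prod_pos α hα
    have hpβ := abs_prod_pos β hβ
    set Z' : ℝ := ((N₀ : ℝ) / np p) ^ 2 * Z with hZ'
    have hZ'0 : 0 < Z' := by
      have : (0 : ℝ) < N₀ := by linarith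
      positivity
    -- the map
    have hex : ∀ m : 𝓞 k, m ∈ p.asIdeal ^ 2 → lam (m : k) ∈ Φ.F →
        ∃ (m' : 𝓞 k) (η : (𝓞 k)ˣ), β ^ 2 * m = α ^ 2 * m' ∧
          lam ((((η : 𝓞 k) ^ 2 * m' : 𝓞 k)) : k) ∈ Φ.F := by
      intro m hm hmF
      obtain ⟨m', hm'⟩ := dvd_of_span_sq p.asIdeal r α β hspan m hm
      have hpos := Φ.pos _ hmF
      have hpos' : ∀ s : Sg k, 0 < lam (m' : k) s := by
        intro s
        have h1 := congrArg (fun x : 𝓞 k => s (x : k)) hm'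
        simp only [map_mul, map_pow] at h1
        have h2 : s ((α : 𝓞 k) : k) ≠ 0 := by
          rw [_root_.map_ne_zero]; exact_mod_cast hα
        have h3 : s ((β : 𝓞 k) : k) ≠ 0 := by
          rw [_root_.map_ne_zero]; exact_mod_cast hβ
        have h4 : 0 < s ((β : 𝓞 k) : k) ^ 2 * s (m : k) :=
          mul_pos (by positivity) (hpos s)
        rw [h1] at h4
        exact (mul_pos_iff_of_pos_left (by positivity)).mp h4
      obtain ⟨η, hη⟩ := Φ.exi _ hpos'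
      refine ⟨m', η, hm', ?_⟩
      have h5 : lam ((((η : 𝓞 k) ^ 2 * m' : 𝓞 k)) : k) =
          lam ((η : 𝓞 k) : k) ^ 2 * lam (m' : k) := by
        funext s
        simp [lam]
      rw [h5]
      exact hη
    choose! m' η hm' hη using hex
    let f : 𝓞 k → 𝓞 k := fun m => (η m : 𝓞 k) ^ 2 * m' m
    have hmap : ∀ m ∈ {m : 𝓞 k | m ∈ p.asIdeal ^ 2 ∧ lam (m : k) ∈ Φ.F ∧
        ∏ s : Sg k, s (m : k) ≤ Z},
        f m ∈ {m : 𝓞 k | lam (m : k) ∈ Φ.F ∧ ∏ s : Sg k, s (m : k) ≤ Z'} := by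
      rintro m ⟨h1, h2, h3⟩
      refine ⟨hη m h1 h2, ?_⟩
      have h4 := hm' m h1 h2
      have hposm := Φ.pos _ h2
      have hposf := Φ.pos _ (hη m h1 h2)
      have h5 : ∏ s : Sg k, s ((f m : 𝓞 k) : k) =
          ∏ s : Sg k, |s ((f m : 𝓞 k) : k)| :=
        Finset.prod_congr rfl fun s _ => (abs_of_pos (hposf s)).symm
      have h6 : (∏ s : Sg k, |s (α : k)|) ^ 2 * ∏ s : Sg k, |s ((f m : 𝓞 k) : k)| =
          (∏ s : Sg k, |s (β : k)|) ^ 2 * ∏ s : Sg k, s (m : k) := by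
        have h7 : (∏ s : Sg k, |s ((f m : 𝓞 k) : k)|) =
            (∏ s : Sg k, |s ((η m : 𝓞 k) : k)|) ^ 2 * ∏ s : Sg k, |s ((m' m : 𝓞 k) : k)| := by
          rw [← Finset.prod_pow, ← Finset.prod_mul_distrib]
          refine Finset.prod_congr rfl fun s _ => ?_
          rw [← abs_pow, ← abs_mul, ← map_pow, ← map_mul]
          simp [f]
        rw [h7, unit_prod hN hk, one_pow, one_mul]
        have h8 : (∏ s : Sg k, s (m : k)) = ∏ s : Sg k, |s (m : k)| :=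
          Finset.prod_congr rfl fun s _ => (abs_of_pos (hposm s)).symm
        rw [h8, ← Finset.prod_pow, ← Finset.prod_pow, ← Finset.prod_mul_distrib,
          ← Finset.prod_mul_distrib]
        refine Finset.prod_congr rfl fun s _ => ?_
        have h9 := congrArg (fun x : 𝓞 k => |s (x : k)|) h4
        simp only [map_mul, map_pow, abs_mul, abs_pow] at h9
        exact h9.symm
      rw [h5]
      have h10 : np p * ∏ s : Sg k, |s (β : k)| ≤ N₀ * ∏ s : Sg k, |s (α : k)| := hnorm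
      have h11 : (np p * ∏ s : Sg k, |s (β : k)|) ^ 2 ≤ (N₀ * ∏ s : Sg k, |s (α : k)|) ^ 2 :=
        pow_le_pow_left₀ (by positivity) h10 2
      have h12 : ∏ s : Sg k, |s ((f m : 𝓞 k) : k)| ≤ Z' := by
        set a := ∏ s : Sg k, |s (α : k)| with ha
        set b := ∏ s : Sg k, |s (β : k)| with hb
        set x := ∏ s : Sg k, |s ((f m : 𝓞 k) : k)| with hx
        have h13 : a ^ 2 * x ≤ b ^ 2 * Z := by
          rw [h6]
          exact mul_le_mul_of_nonneg_left h3 (by positivity)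
        have h14 : np p ^ 2 * (a ^ 2 * x) ≤ (N₀ : ℝ) ^ 2 * a ^ 2 * Z := by
          calc np p ^ 2 * (a ^ 2 * x) ≤ np p ^ 2 * (b ^ 2 * Z) :=
                mul_le_mul_of_nonneg_left h13 (by positivity)
            _ = (np p * b) ^ 2 * Z := by ring
            _ ≤ (N₀ * a) ^ 2 * Z := mul_le_mul_of_nonneg_right h11 hZ.le
            _ = _ := by ring
        have h15 : a ^ 2 * (np p ^ 2 * x) ≤ a ^ 2 * ((N₀ : ℝ) ^ 2 * Z) := by linarith
        have h16 : np p ^ 2 * x ≤ (N₀ : ℝ) ^ 2 * Z := le_of_mul_le_mul_left h15 (by positivity)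
        rw [hZ', div_pow, div_mul_eq_mul_div, le_div_iff₀ (by positivity)]
        linarith
      exact h12
    have hinj : Set.InjOn f {m : 𝓞 k | m ∈ p.asIdeal ^ 2 ∧ lam (m : k) ∈ Φ.F ∧
        ∏ s : Sg k, s (m : k) ≤ Z} := by
      rintro m ⟨h1, h2, -⟩ n ⟨h3, h4, -⟩ hmn
      have h5 := hm' m h1 h2
      have h6 := hm' n h3 h4
      have h7 : (η m : 𝓞 k) ^ 2 * m' m = (η n : 𝓞 k) ^ 2 * m' n := hmn
      have h8 : (η m : 𝓞 k) ^ 2 * m = (η n : 𝓞 k) ^ 2 * n := by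
        have h9 : β ^ 2 * ((η m : 𝓞 k) ^ 2 * m) = β ^ 2 * ((η n : 𝓞 k) ^ 2 * n) := by
          calc β ^ 2 * ((η m : 𝓞 k) ^ 2 * m) = (η m : 𝓞 k) ^ 2 * (β ^ 2 * m) := by ring
            _ = α ^ 2 * ((η m : 𝓞 k) ^ 2 * m' m) := by rw [h5]; ring
            _ = (η n : 𝓞 k) ^ 2 * (α ^ 2 * m' n) := by rw [h7]; ring
            _ = _ := by rw [← h6]; ring
        exact mul_left_cancel₀ (pow_ne_zero 2 hβ) h9
      have h10 : n = (((η n)⁻¹ * η m : (𝓞 k)ˣ) : 𝓞 k) ^ 2 * m := by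
        have h11 : (((η n)⁻¹ : (𝓞 k)ˣ) : 𝓞 k) * (η n : 𝓞 k) = 1 := Units.inv_mul _
        rw [Units.val_mul, mul_pow, mul_assoc, h8, ← mul_assoc, ← mul_pow, h11, one_pow, one_mul]
      have h12 := Φ.uni _ h2 ((η n)⁻¹ * η m) (by
        have h13 : lam ((((η n)⁻¹ * η m : (𝓞 k)ˣ) : 𝓞 k) : k) ^ 2 * lam (m : k) =
            lam (n : k) := by
          funext s
          conv_rhs => rw [h10]
          simp only [lam, Pi.mul_apply, Pi.pow_apply, map_mul, map_pow]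
        rw [h13]
        exact h4)
      rcases h12 with h12 | h12
      · rw [h12] at h10
        rw [h10]
        simp
      · rw [h12] at h10
        rw [h10]
        simp
    have hfin := (hmst Z' hZ'0).1
    have h1 := Set.ncard_le_ncard_of_injOn f hmap hinj hfin
    have h2 : (({m : 𝓞 k | m ∈ p.asIdeal ^ 2 ∧ lam (m : k) ∈ Φ.F ∧
        ∏ s : Sg k, s (m : k) ≤ Z}.ncard : ℝ)) ≤ A * Z' :=
      le_trans (by exact_mod_cast h1) (hmst Z' hZ'0).2
    refine h2.trans (le_of_eq ?_)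
    rw [hZ', div_pow]
    ring

end

end Pool.Agent.LeoK.H64
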